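import Pool.Agent.MP_961ca8_al.H15.Spec

/-! Lifting of solutions modulo powers of `s`, and saturation. -/

namespace Pool.Agent.MP_961ca8_al.H15

open MvPolynomial

namespace LIFT

variable {B : Type} [CommRing B]

/-- The shear `X (i+1) ↦ X (i+1) - s X (i+2)`. -/
noncomputable def tau (s : B) (i : Fin 3) : P B →ₐ[B] P B :=
  aeval fun j => if j = i + 1 then X (i + 1) - C s * X (i + 2) else X j

theorem ne1 : ∀ i : Fin 3, i ≠ i + 1 := by decide

theorem ne2 : ∀ i : Fin 3, i + 2 ≠ i + 1 := by decide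

theorem tau_X0 (s : B) (i : Fin 3) : tau s i (X i) = X i := by
  simp only [tau, aeval_X, if_neg (ne1 i)]

theorem tau_X1 (s : B) (i : Fin 3) : tau s i (X (i + 1)) = X (i + 1) - C s * X (i + 2) := by
  simp only [tau, aeval_X, if_true]

theorem tau_X2 (s : B) (i : Fin 3) : tau s i (X (i + 2)) = X (i + 2) := by
  simp only [tau, aeval_X, if_neg (ne2 i)]

theorem tau_C (s : B) (i : Fin 3) (c : B) : tau s i (C c) = C c := (tau s i).commutes c

theorem tau_uu (s : B) (i : Fin 3) : tau s i (uu s i) = X (i + 1) := by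
  rw [uu, map_add, map_mul, tau_X1, tau_X2, tau_C]
  ring

theorem tau_neg (s : B) (i : Fin 3) : tau (-s) i (X (i + 1)) = uu s i := by
  rw [tau_X1, uu, map_neg]
  ring

theorem tau_tau (s : B) (i : Fin 3) (f : P B) : tau (-s) i (tau s i f) = f := by
  have h : (tau (-s) i).comp (tau s i) = AlgHom.id B (P B) := by
    refine algHom_ext fun j => ?_
    rw [AlgHom.comp_apply, AlgHom.id_apply]
    by_cases hj : j = i + 1
    · rw [hj, tau_X1, map_sub, map_mul, tau_X1, tau_X2, tau_C, map_neg]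
      ring
    · simp only [tau, aeval_X, if_neg hj]
  exact AlgHom.congr_fun h f

theorem dvd_tau (s : B) (i : Fin 3) (f : P B) : C s ∣ tau s i f - f := by
  induction f using MvPolynomial.induction_on with
  | C a => rw [tau_C, sub_self]; exact dvd_zero _
  | add f g hf hg =>
    rw [map_add, add_sub_add_comm]
    exact dvd_add hf hg
  | mul_X f j hf =>
    have h1 : C s ∣ tau s i (X j) - X j := by
      by_cases hj : j = i + 1
      · rw [hj, tau_X1]
        exact ⟨-X (i + 2), by ring⟩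
      · simp only [tau, aeval_X, if_neg hj, sub_self, dvd_zero]
    have h2 : tau s i (f * X j) - f * X j =
        (tau s i f - f) * tau s i (X j) + f * (tau s i (X j) - X j) := by
      rw [map_mul]
      ring
    rw [h2]
    exact dvd_add (hf.mul_right _) (h1.mul_left _)

/-- The monomial ideal. -/
noncomputable def MM (B : Type) [CommRing B] (i : Fin 3) (n : ℕ) : Ideal (P B) :=
  Ideal.span {X i, X (i + 1) ^ 3} ^ n

theorem tau_mem {s : B} {i : Fin 3} {n : ℕ} {f : P B} (h : f ∈ Q s i n) :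
    tau s i f ∈ MM B i n := by
  have h1 := Ideal.mem_map_of_mem (tau s i) h
  rwa [Q, Ideal.map_pow, Ideal.map_span, Set.image_pair, map_pow, tau_X0, tau_uu] at h1

theorem of_tau_mem {s : B} {i : Fin 3} {n : ℕ} {f : P B} (h : tau s i f ∈ MM B i n) :
    f ∈ Q s i n := by
  have h1 := Ideal.mem_map_of_mem (tau (-s) i) h
  rwa [MM, Ideal.map_pow, Ideal.map_span, Set.image_pair, map_pow, tau_X0, tau_neg, tau_tau] at h1

/-- All monomials have weight at least `k`. -/
def V (i : Fin 3) (k : ℕ) (f : P B) : Prop := ∀ a ∈ f.support, k ≤ 3 * a i + a (i + 1)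

theorem V.add {i : Fin 3} {k : ℕ} {f g : P B} (hf : V i k f) (hg : V i k g) : V i k (f + g) :=
  fun a ha => (Finset.mem_union.1 (support_add ha)).elim (hf a) (hg a)

theorem V.mul {i : Fin 3} {k l : ℕ} {f g : P B} (hf : V i k f) (hg : V i l g) :
    V i (k + l) (f * g) := by
  intro a ha
  obtain ⟨b, hb, c, hc, rfl⟩ := Finset.mem_add.1 (support_mul f g ha)
  have h1 := hf b hb
  have h2 := hg c hc
  simp only [Finsupp.add_apply]
  omega

theorem V_zero (i : Fin 3) (f : P B) : V i 0 f := fun _ _ => Nat.zero_le _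

theorem V_mono (i : Fin 3) {k : ℕ} {a : Fin 3 →₀ ℕ} (h : k ≤ 3 * a i + a (i + 1)) (c : B) :
    V i k (monomial a c) := fun b hb => by
  rw [Finset.mem_singleton.1 (support_monomial_subset hb)]
  exact h

theorem V_of_mem {i : Fin 3} {n : ℕ} {f : P B} (h : f ∈ MM B i n) : V i (3 * n) f := by
  induction n generalizing f with
  | zero => exact V_zero i f
  | succ n ih =>
    rw [MM, pow_succ] at h
    refine Submodule.mul_induction_on h (fun g hg k hk => ?_) fun x y hx hy => hx.add hy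
    refine (ih hg).mul ?_
    obtain ⟨a, b, rfl⟩ := Ideal.mem_span_pair.1 hk
    have h1 : V i 3 (X i : P B) := V_mono i (by simp) 1
    have h2 : V i 3 (X (i + 1) ^ 3 : P B) := by
      rw [X_pow_eq_monomial]
      exact V_mono i (by simp) 1
    exact ((V_zero i a).mul h1).add ((V_zero i b).mul h2)

theorem pow_mem (i : Fin 3) (n j k : ℕ) (h : 3 * n ≤ 3 * j + k) :
    (X i ^ j * X (i + 1) ^ k : P B) ∈ MM B i n := by
  induction n generalizing j k with
  | zero => simp [MM]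
  | succ n ih =>
    rw [MM, pow_succ]
    rcases j with _ | j
    · obtain ⟨k, rfl⟩ : ∃ l, k = l + 3 := ⟨k - 3, by omega⟩
      rw [pow_add, ← mul_assoc]
      exact Ideal.mul_mem_mul (ih 0 k (by omega)) (Ideal.subset_span (by simp))
    · rw [pow_succ (X i), mul_right_comm]
      exact Ideal.mul_mem_mul (ih j k (by omega)) (Ideal.subset_span (by simp))

theorem mon_eq (a : Fin 3 →₀ ℕ) (c : B) : monomial a c = C c * ∏ j, (X j ^ a j : P B) := by
  rw [monomial_eq, Finsupp.prod_fintype _ _ fun _ => pow_zero _]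

theorem mem_of_V {i : Fin 3} {n : ℕ} {f : P B} (h : V i (3 * n) f) : f ∈ MM B i n := by
  rw [f.as_sum]
  refine Ideal.sum_mem _ fun a ha => ?_
  have h1 := Finset.prod_dvd_prod_of_subset {i, i + 1} Finset.univ (fun j => (X j ^ a j : P B))
    (Finset.subset_univ _)
  rw [Finset.prod_pair (ne1 i)] at h1
  rw [mon_eq]
  exact Ideal.mul_mem_left _ _ (Ideal.mem_of_dvd _ h1 (pow_mem i n _ _ (h a ha)))

theorem supp_sub [IsDomain B] {s : B} (hs : s ≠ 0) (f : P B) : f.support ⊆ (C s * f).support :=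
  fun a ha => by
    rw [mem_support_iff, coeff_C_mul]
    exact mul_ne_zero hs (mem_support_iff.1 ha)

theorem cancel [IsDomain B] {s c : B} (hc : c ≠ 0) {i : Fin 3} {n : ℕ} {f : P B}
    (h : C c * f ∈ Q s i n) : f ∈ Q s i n := by
  have h1 := V_of_mem (tau_mem h)
  rw [map_mul, tau_C] at h1
  exact of_tau_mem (mem_of_V fun a ha => h1 a (supp_sub hc _ ha))

theorem cancel_hom [IsDomain B] {c : B} (hc : c ≠ 0) {n : ℕ} {f : P B}
    (h : (C c * f).IsHomogeneous n) : f.IsHomogeneous n := fun _ ha =>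
  h (mem_support_iff.1 (supp_sub hc f (mem_support_iff.2 ha)))

theorem dvd_coeff {s : B} {i : Fin 3} {n t : ℕ} {f : P B}
    (h : f ∈ Q s i n ⊔ Ideal.span {(C s : P B) ^ (t + 1)}) {a : Fin 3 →₀ ℕ}
    (ha : 3 * a i + a (i + 1) < 3 * n) : s ∣ coeff a f := by
  obtain ⟨q, hq, r, hr, rfl⟩ := Submodule.mem_sup.1 h
  have h1 : C s ∣ r := (dvd_pow_self _ (Nat.succ_ne_zero t)).trans (Ideal.mem_span_singleton.1 hr)
  have h2 : coeff a (tau s i q) = 0 :=
    notMem_support_iff.1 fun h => absurd (V_of_mem (tau_mem hq) a h) (by omega)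
  have h3 := (C_dvd_iff_dvd_coeff _ _).1 ((dvd_tau s i q).neg_right.add h1) a
  rwa [coeff_add, coeff_neg, coeff_sub, h2, zero_sub, neg_neg, ← coeff_add] at h3

/-- Congruent modulo `s` to a homogeneous element of the algebra. -/
def Good (s : B) (n : ℕ) (f : P B) : Prop :=
  ∃ ρ ∈ Aalg s, ρ.IsHomogeneous (4 * n) ∧ C s ∣ f - ρ

theorem Good.mul {s : B} {n m : ℕ} {f g : P B} (hf : Good s n f) (hg : Good s m g) :
    Good s (n + m) (f * g) := by
  obtain ⟨a, ha, ha1, ha2⟩ := hf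
  obtain ⟨b, hb, hb1, hb2⟩ := hg
  refine ⟨a * b, mul_mem ha hb, by rw [mul_add]; exact ha1.mul hb1, ?_⟩
  have h : f * g - a * b = (f - a) * g + a * (g - b) := by ring
  rw [h]
  exact dvd_add (ha2.mul_right _) (hb2.mul_left _)

theorem Good.add {s : B} {n : ℕ} {f g : P B} (hf : Good s n f) (hg : Good s n g) :
    Good s n (f + g) := by
  obtain ⟨a, ha, ha1, ha2⟩ := hf
  obtain ⟨b, hb, hb1, hb2⟩ := hg
  exact ⟨a + b, add_mem ha hb, ha1.add hb1, by rw [add_sub_add_comm]; exact dvd_add ha2 hb2⟩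

theorem good_dvd {s : B} (n : ℕ) {f : P B} (h : C s ∣ f) : Good s n f :=
  ⟨0, zero_mem _, isHomogeneous_zero _ _ _, by rwa [sub_zero]⟩

theorem good_C (s c : B) : Good s 0 (C c) :=
  ⟨C c, (Aalg s).algebraMap_mem c, isHomogeneous_C _ c, by rw [sub_self]; exact dvd_zero _⟩

theorem good_hh (s : B) (i : Fin 3) : Good s 1 (X 0 * X 1 * X 2 * X i) :=
  ⟨hh i, Algebra.subset_adjoin (Or.inr ⟨i, rfl⟩),
    (((isHomogeneous_X B 0).mul (isHomogeneous_X B 1)).mul (isHomogeneous_X B 2)).mul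
      (isHomogeneous_X B i), by rw [hh, sub_self]; exact dvd_zero _⟩

theorem good_th (s : B) (i : Fin 3) : Good s 1 (X (i + 2) * X (i + 1) ^ 3) := by
  have hu : ∀ j, (uu s j).IsHomogeneous 1 := fun j =>
    (isHomogeneous_X B _).add ((isHomogeneous_X B _).C_mul s)
  refine ⟨th s i, Algebra.subset_adjoin (Or.inl ⟨i, rfl⟩), ?_, ?_⟩
  · rw [th, ← map_pow]
    exact (isHomogeneous_X B _).mul (((hu i).pow 3).add
      ((((hu (i + 1)).pow 3).sub ((isHomogeneous_X B _).pow 3)).C_mul _))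
  · refine ⟨-X (i + 2) * (3 * X (i + 1) ^ 2 * X (i + 2) + 3 * C s * X (i + 1) * X (i + 2) ^ 2 +
      C s ^ 2 * X (i + 2) ^ 3 + C s ^ 2 * (uu s (i + 1) ^ 3 - X (i + 2) ^ 3)), ?_⟩
    rw [th, uu]
    ring

theorem good_mon (s : B) (n a b c : ℕ) (h : a + b + c = 4 * n) (h0 : 3 * n ≤ 3 * a + b)
    (h1 : 3 * n ≤ 3 * b + c) (h2 : 3 * n ≤ 3 * c + a) :
    Good s n (X 0 ^ a * X 1 ^ b * X 2 ^ c) := by
  induction n generalizing a b c with
  | zero =>
    obtain ⟨rfl, rfl, rfl⟩ : a = 0 ∧ b = 0 ∧ c = 0 := by omega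
    simpa using good_C s 1
  | succ n ih =>
    have step : ∀ (u v w : ℕ) (g : P B), g = X 0 ^ u * X 1 ^ v * X 2 ^ w → Good s 1 g →
        u + v + w = 4 → u ≤ a ∧ v ≤ b ∧ w ≤ c ∧ 3 * n + (3 * u + v) ≤ 3 * a + b ∧
          3 * n + (3 * v + w) ≤ 3 * b + c ∧ 3 * n + (3 * w + u) ≤ 3 * c + a →
        Good s (n + 1) (X 0 ^ a * X 1 ^ b * X 2 ^ c) := by
      rintro u v w g rfl hg e ⟨k1, k2, k3, k4, k5, k6⟩
      obtain ⟨a, rfl⟩ := Nat.exists_eq_add_of_le' k1
      obtain ⟨b, rfl⟩ := Nat.exists_eq_add_of_le' k2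
      obtain ⟨c, rfl⟩ := Nat.exists_eq_add_of_le' k3
      have h3 := (ih a b c (by omega) (by omega) (by omega) (by omega)).mul hg
      have h4 : (X 0 ^ (a + u) * X 1 ^ (b + v) * X 2 ^ (c + w) : P B) =
          X 0 ^ a * X 1 ^ b * X 2 ^ c * (X 0 ^ u * X 1 ^ v * X 2 ^ w) := by ring
      rwa [h4]
    have s1 := step 0 3 1 (X 2 * X 1 ^ 3) (by ring) (good_th s 0) rfl
    have s2 := step 1 0 3 (X 0 * X 2 ^ 3) (by ring) (good_th s 1) rfl
    have s3 := step 3 1 0 (X 1 * X 0 ^ 3) (by ring) (good_th s 2) rfl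
    have s4 := step 2 1 1 _ (by ring) (good_hh s 0) rfl
    have s5 := step 1 2 1 _ (by ring) (good_hh s 1) rfl
    have s6 := step 1 1 2 _ (by ring) (good_hh s 2) rfl
    obtain ⟨x, hx⟩ := Nat.exists_eq_add_of_le h0
    obtain ⟨y, hy⟩ := Nat.exists_eq_add_of_le h1
    obtain ⟨z, hz⟩ := Nat.exists_eq_add_of_le h2
    have ea : 7 * a = 3 * x + z := by omega
    have eb : 7 * b = 3 * y + x := by omega
    have ec : 7 * c = 3 * z + y := by omega
    rcases le_or_gt 7 x with k1 | k1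
    · exact s3 (by omega)
    rcases le_or_gt 7 y with k2 | k2
    · exact s1 (by omega)
    rcases le_or_gt 7 z with k3 | k3
    · exact s2 (by omega)
    have k4 : 0 < x + y + z := by omega
    have k5 : (4 ≤ x ∧ 1 ≤ y ∧ 2 ≤ z) ∨ (2 ≤ x ∧ 4 ≤ y ∧ 1 ≤ z) ∨ (1 ≤ x ∧ 2 ≤ y ∧ 4 ≤ z) := by
      clear s1 s2 s3 s4 s5 s6 step ih hx hy hz h h0 h1 h2
      interval_cases x <;> interval_cases y <;> omega
    rcases k5 with k | k | k
    · exact s4 (by omega)
    · exact s5 (by omega)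
    · exact s6 (by omega)

theorem good_of {s : B} {n t : ℕ} {f : P B} (hf : f.IsHomogeneous (4 * n))
    (h : ∀ i, f ∈ Q s i n ⊔ Ideal.span {(C s : P B) ^ (t + 1)}) : Good s n f := by
  rw [f.as_sum]
  refine Finset.sum_induction _ (Good s n) (fun _ _ => Good.add) (good_dvd n (dvd_zero _))
    fun a ha => ?_
  by_cases hc : ∀ i, 3 * n ≤ 3 * a i + a (i + 1)
  · have h1 : a.degree = 4 * n := by
      by_contra h1
      exact mem_support_iff.1 ha (hf.coeff_eq_zero h1)
    rw [Finsupp.degree_eq_sum, Fin.sum_univ_three] at h1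
    have h2 := (good_C s (coeff a f)).mul (good_mon s n _ _ _ h1 (hc 0) (hc 1) (hc 2))
    rwa [zero_add, ← Fin.prod_univ_three fun j => (X j ^ a j : P B), ← mon_eq] at h2
  · obtain ⟨i, hi⟩ := not_forall.1 hc
    obtain ⟨c, hc⟩ := dvd_coeff (h i) (not_le.1 hi)
    exact good_dvd n ⟨monomial a c, by rw [hc, C_mul_monomial]⟩

theorem mem_Q (hG : GrStmt) {s : B} {n : ℕ} {ρ : P B} (h : ρ ∈ Aalg s)
    (h1 : ρ.IsHomogeneous (4 * n)) (i : Fin 3) : ρ ∈ Q s i n := by
  have h2 := (hG B s ρ h (4 * n)).2.2 n i rfl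
  rwa [homogeneousComponent_eq_self h1] at h2

end LIFT

open LIFT

theorem lift_of : GrStmt → LiftStmt := by
  intro hG B _ _ s hs t n
  induction t with
  | zero => exact fun f _ _ => ⟨0, zero_mem _, isHomogeneous_zero _ _ _, by simp⟩
  | succ t ih =>
    intro f hf h
    obtain ⟨ρ, hρ, h1, g, hg⟩ := good_of hf h
    obtain ⟨ρ', hρ', h2, h3⟩ := ih g (cancel_hom hs (hg ▸ hf.sub h1)) fun i => by
      obtain ⟨q, hq, r, hr, e⟩ := Submodule.mem_sup.1 (h i)
      obtain ⟨c, rfl⟩ := Ideal.mem_span_singleton.1 hr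
      have h4 : C s * (g - C s ^ t * c) = q - ρ := by
        rw [mul_sub, ← hg, ← e]
        ring
      have h5 : g - C s ^ t * c ∈ Q s i n := cancel hs (h4 ▸ sub_mem hq (mem_Q hG hρ h1 i))
      exact Submodule.mem_sup.2 ⟨_, h5, _, Ideal.mem_span_singleton.2 (dvd_mul_right _ c),
        sub_add_cancel _ _⟩
    refine ⟨ρ + C s * ρ', add_mem hρ (mul_mem ((Aalg s).algebraMap_mem s) hρ'),
      h1.add (h2.C_mul s), ?_⟩
    obtain ⟨c, hc⟩ := Ideal.mem_span_singleton.1 h3
    refine Ideal.mem_span_singleton.2 ⟨c, ?_⟩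
    rw [← sub_sub, hg, ← mul_sub, hc]
    ring

theorem sat_of : GrStmt → LiftStmt → SatStmt := by
  intro hG hL B _ _ _ s hs t f hf ht
  obtain ⟨g, rfl⟩ := Ideal.mem_span_singleton.1 ht
  have key : ∀ (n : ℕ) (g : P B), g.IsHomogeneous (4 * n) → (∀ i, g ∈ Q s i n) →
      ∃ w : B, w - 1 ∈ Ideal.span {s} ∧ C w * g ∈ Aalg s := by
    intro n g h1 h2
    let R : Submodule B (P B) :=
      homogeneousSubmodule (Fin 3) B (4 * n) ⊓ ⨅ i, (Q s i n).restrictScalars B
    have hR : ∀ x, x ∈ R ↔ x.IsHomogeneous (4 * n) ∧ ∀ i, x ∈ Q s i n := fun x => by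
      simp only [R, Submodule.mem_inf, Submodule.mem_iInf, Submodule.restrictScalars_mem,
        mem_homogeneousSubmodule]
    have hfg : R.FG :=
      (homogeneousSubmodule_fg (Fin 3) B (4 * n)).of_le inf_le_left
    obtain ⟨w, hw, hw'⟩ := Submodule.exists_sub_one_mem_and_smul_le_of_fg_of_le_sup
      (I := Ideal.span {s}) (N := Subalgebra.toSubmodule (Aalg s)) hfg le_rfl fun x hx => by
        obtain ⟨k1, k2⟩ := (hR x).1 hx
        obtain ⟨ρ, hρ, k3, k4⟩ := hL B s hs 1 n x k1 fun i => Submodule.mem_sup_left (k2 i)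
        obtain ⟨y, hy⟩ := Ideal.mem_span_singleton.1 k4
        rw [pow_one] at hy
        have k5 : y ∈ R := (hR y).2 ⟨cancel_hom hs (hy ▸ k1.sub k3), fun i =>
          cancel hs (hy ▸ sub_mem (k2 i) (mem_Q hG hρ k3 i))⟩
        refine Submodule.mem_sup.2 ⟨ρ, hρ, s • y,
          Submodule.smul_mem_smul (Ideal.mem_span_singleton_self s) k5, ?_⟩
        rw [smul_eq_C_mul, ← hy, add_sub_cancel]
    refine ⟨w, hw, ?_⟩
    rw [← smul_eq_C_mul]
    exact hw' (Submodule.smul_mem_pointwise_smul g w R ((hR g).2 ⟨h1, h2⟩))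
  have hst : s ^ t ≠ 0 := pow_ne_zero t hs
  have h0 : ∃ w : B, w - 1 ∈ Ideal.span {s} ∧ C w * (0 : P B) ∈ Aalg s :=
    ⟨1, by simp, by simp⟩
  have h1 : ∃ w : B, w - 1 ∈ Ideal.span {s} ∧ C w * g ∈ Aalg s := by
    rw [← sum_homogeneousComponent g]
    refine Finset.sum_induction _ (fun x => ∃ w : B, w - 1 ∈ Ideal.span {s} ∧ C w * x ∈ Aalg s)
      ?_ h0 fun d _ => ?_
    · rintro x y ⟨w, hw, hx⟩ ⟨w', hw', hy⟩
      refine ⟨w * w', ?_, ?_⟩
      · have e : w * w' - 1 = w * (w' - 1) + (w - 1) := by ring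
        rw [e]
        exact add_mem (Ideal.mul_mem_left _ _ hw') hw
      · have e : C (w * w') * (x + y) = C w' * (C w * x) + C w * (C w' * y) := by
          rw [map_mul]
          ring
        rw [e]
        exact add_mem (mul_mem ((Aalg s).algebraMap_mem w') hx)
          (mul_mem ((Aalg s).algebraMap_mem w) hy)
    · obtain ⟨-, k1, k2⟩ := hG B s _ hf d
      rw [← map_pow, homogeneousComponent_C_mul] at k1 k2
      by_cases hd : 4 ∣ d
      · obtain ⟨n, rfl⟩ := hd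
        exact key n _ (homogeneousComponent_isHomogeneous _ _) fun i => cancel hst (k2 n i rfl)
      · have k3 := (mul_eq_zero.1 (k1 hd)).resolve_left (C_ne_zero.2 hst)
        rwa [k3]
  obtain ⟨w, hw, h2⟩ := h1
  exact ⟨w, C w * g, hw, h2, by ring⟩

end Pool.Agent.MP_961ca8_al.H15
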